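import Pool.Agent.P.MP_4bb7d7_co.LgMain

namespace Pool.Agent.Results.MP_4bb7d7_co.LogGap

open Pool.Agent.P.MP_4bb7d7_co

/-- The number `l = 2 cos (2π / 15015)` is a graph eigenvalue of degree `d = 2880` whose maximum
multiplicity is at most `n / d - c n / log n`. -/
theorem result (l : ℝ) (hl : l = 2 * Real.cos (2 * Real.pi / 15015)) :
    IsIntegral ℤ l ∧ (minpoly ℚ l).natDegree = 2880 ∧
    (∃ (k : ℕ) (G : SimpleGraph (Fin k)), 0 < mult G l) ∧
    ∃ c : ℝ, 0 < c ∧ ∀ n : ℕ, 2 ≤ n →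
      (maxMult n l : ℝ) ≤ n / 2880 - c * (n / Real.log n) := by
  obtain ⟨s, hs⟩ := cos_eq
  rw [hl, hs]
  exact loggap_main s

/-- The question as posed, from `result`. -/
theorem posed_form : ∃ l : ℝ, IsIntegral ℤ l ∧ 2 ≤ (minpoly ℚ l).natDegree ∧
    (∃ (k : ℕ) (G : SimpleGraph (Fin k)), 0 < mult G l) ∧
    ∃ c : ℝ, 0 < c ∧ ∃ n₀ : ℕ, ∀ n ≥ n₀,
      (maxMult n l : ℝ) ≤ n / (minpoly ℚ l).natDegree - c * √n := by
  obtain ⟨h1, h2, h3, c, c0, h⟩ := result _ rfl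
  refine ⟨_, h1, by omega, h3, c / 2, by positivity, 2, fun n hn => (h n hn).trans ?_⟩
  have n2 : (2 : ℝ) ≤ n := by exact_mod_cast hn
  have s0 : 0 < √(n : ℝ) := Real.sqrt_pos.2 (by linarith)
  have a1 : Real.log n ≤ 2 * √n := by
    have := Real.log_le_sub_one_of_pos s0
    rw [Real.log_sqrt (by linarith)] at this
    linarith
  have a2 : √n / 2 ≤ n / Real.log n := by
    rw [le_div_iff₀ (Real.log_pos (by linarith))]
    nlinarith [Real.mul_self_sqrt (show (0 : ℝ) ≤ n by linarith)]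
  rw [h2]
  push_cast
  nlinarith

/-- The inequality of the question holds with every constant, from `result`. -/
theorem every_constant (l : ℝ) (hl : l = 2 * Real.cos (2 * Real.pi / 15015)) (C : ℝ) :
    ∃ n₀ : ℕ, ∀ n ≥ n₀, (maxMult n l : ℝ) ≤ n / 2880 - C * √n := by
  obtain ⟨-, -, -, c, c0, h⟩ := result l hl
  obtain ⟨N, hN⟩ := exists_nat_ge (4 * |C| / c)
  refine ⟨N ^ 4 + 2, fun n hn => (h n (by omega)).trans ?_⟩
  have n2 : (N : ℝ) ^ 4 + 2 ≤ n := by exact_mod_cast hn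
  have n1 : (1 : ℝ) < n := by nlinarith [pow_nonneg (N.cast_nonneg (α := ℝ)) 4]
  have s0 : 0 < √(n : ℝ) := Real.sqrt_pos.2 (by linarith)
  have t0 : 0 < √√(n : ℝ) := Real.sqrt_pos.2 s0
  have a0 : (N : ℝ) ≤ √√(n : ℝ) :=
    Real.le_sqrt_of_sq_le (Real.le_sqrt_of_sq_le (by nlinarith))
  have a1 : Real.log n ≤ 4 * √√n := by
    have := Real.log_le_sub_one_of_pos t0
    rw [Real.log_sqrt s0.le, Real.log_sqrt (by linarith)] at this
    linarith
  have a2 : √n * √√n / 4 ≤ n / Real.log n := by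
    rw [le_div_iff₀ (Real.log_pos n1)]
    have e1 := Real.mul_self_sqrt (show (0 : ℝ) ≤ n by linarith)
    have e2 := Real.mul_self_sqrt s0.le
    nlinarith [mul_le_mul_of_nonneg_left a1 (mul_pos s0 t0).le]
  rw [div_le_iff₀ c0] at hN
  nlinarith [mul_le_mul_of_nonneg_left a2 c0.le, mul_le_mul_of_nonneg_left a0 (mul_pos c0 s0).le,
    mul_le_mul_of_nonneg_right hN s0.le, mul_le_mul_of_nonneg_right (le_abs_self C) s0.le]

/-- The same bound for every totally real algebraic integer of degree `d` whose minimal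
polynomial has discriminant below `d ^ d`; `r` lists the roots. -/
theorem criterion (l : ℝ) (hl : IsIntegral ℤ l) (d : ℕ) (hd : (minpoly ℚ l).natDegree = d)
    (r : Fin d → ℝ) (hr : Function.Injective r)
    (h0 : ∀ i, Polynomial.aeval (r i) (minpoly ℚ l) = 0)
    (h1 : ∏ i, ∏ j ∈ Finset.Ioi i, (r j - r i) ^ 2 < (d : ℝ) ^ d) :
    ∃ c : ℝ, 0 < c ∧ ∀ n : ℕ, 2 ≤ n → (maxMult n l : ℝ) ≤ n / d - c * (n / Real.log n) :=
  disc_gap l hl d hd r hr h0 h1

end Pool.Agent.Results.MP_4bb7d7_co.LogGap
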