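import Pool.Agent.P.MP_4bb7d7_co.QuadLo

namespace Pool.Agent.Results.MP_4bb7d7_co.Quadratic

open Pool.Agent.P.MP_4bb7d7_co

/-- The order of `n / 2 - E_s(n, l)` for every real quadratic integer `l`: bounded if the trace
of `l` is `0`, `-1` or `-2`, of exact order `√n` otherwise. -/
theorem result (l : ℝ) (hl : IsIntegral ℤ l) (hd : (minpoly ℚ l).natDegree = 2) :
    ((minpoly ℚ l).coeff 1 ∈ ({0, 1, 2} : Set ℚ) →
      ∃ C : ℝ, ∀ n : ℕ, n / 2 - C ≤ (maxMult n l : ℝ) ∧ (maxMult n l : ℝ) ≤ n / 2) ∧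
    ((minpoly ℚ l).coeff 1 ∉ ({0, 1, 2} : Set ℚ) →
      ∃ c C : ℝ, 0 < c ∧ ∀ n : ℕ,
        n / 2 - C * √n ≤ (maxMult n l : ℝ) ∧ (maxMult n l : ℝ) ≤ n / 2 - c * √n) :=
  quad_main l hl hd

/-- The question as posed, from `result` at the golden ratio. -/
theorem posed_form : ∃ l : ℝ, IsIntegral ℤ l ∧ 2 ≤ (minpoly ℚ l).natDegree ∧
    (∃ (k : ℕ) (G : SimpleGraph (Fin k)), 0 < mult G l) ∧
    ∃ c : ℝ, 0 < c ∧ ∃ n₀ : ℕ, ∀ n ≥ n₀,
      (maxMult n l : ℝ) ≤ n / (minpoly ℚ l).natDegree - c * √n := by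
  have hm := minpoly_eq Real.goldenRatio_sq Real.goldenRatio_irrational
  have hd : (minpoly ℚ Real.goldenRatio).natDegree = 2 := by rw [hm, gp_natDegree]
  have hl : IsIntegral ℤ Real.goldenRatio :=
    ⟨Polynomial.X ^ 2 - Polynomial.X - 1, by monicity!, by simp [Real.goldenRatio_sq]⟩
  obtain ⟨c, C, c0, h⟩ := (result _ hl hd).2 (by
    rw [hm]
    norm_num [gp, Polynomial.coeff_X, Polynomial.coeff_one])
  refine ⟨_, hl, hd.ge, ?_, c, c0, 0, fun n _ => by rw [hd]; exact_mod_cast (h n).2⟩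
  obtain ⟨N, hN⟩ := exists_nat_gt (2 * |C|)
  obtain ⟨G, hG⟩ := max_attained (N * N) Real.goldenRatio
  have h1 := (h (N * N)).1
  rw [hG, Nat.cast_mul, Real.sqrt_mul_self N.cast_nonneg] at h1
  have h2 : (0 : ℝ) < mult G Real.goldenRatio := by
    nlinarith [abs_nonneg C, le_abs_self C]
  exact ⟨_, G, by exact_mod_cast h2⟩

end Pool.Agent.Results.MP_4bb7d7_co.Quadratic
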