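import Pool.Agent.P.MP_4bb7d7_co.EdFin
import Pool.Agent.P.MP_4bb7d7_co.EdUp

namespace Pool.Agent.Results.MP_4bb7d7_co.TraceDichotomy

open Pool.Agent.P.MP_4bb7d7_co

/-- Degree `d ≥ 2`, trace `s` (`nextCoeff` of the minimal polynomial is `-s`). For `-d ≤ s ≤ 0`
some `l` loses only a constant; otherwise every `l` loses `c √n` and some `l` at most `C √n`. -/
theorem result (d : ℕ) (hd : 2 ≤ d) (s : ℤ) :
    (-(d : ℤ) ≤ s ∧ s ≤ 0 →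
      ∃ l : ℝ, IsIntegral ℤ l ∧ (minpoly ℚ l).natDegree = d ∧ (minpoly ℚ l).nextCoeff = -s ∧
        ∃ C : ℝ, ∀ n : ℕ, n / d - C ≤ (maxMult n l : ℝ)) ∧
    (¬(-(d : ℤ) ≤ s ∧ s ≤ 0) →
      (∀ l : ℝ, IsIntegral ℤ l → (minpoly ℚ l).natDegree = d → (minpoly ℚ l).nextCoeff = -s →
        ∃ c : ℝ, 0 < c ∧ ∀ n : ℕ, (maxMult n l : ℝ) ≤ n / d - c * √n) ∧
      ∃ l : ℝ, IsIntegral ℤ l ∧ (minpoly ℚ l).natDegree = d ∧ (minpoly ℚ l).nextCoeff = -s ∧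
        ∃ C : ℝ, ∀ n : ℕ, n / d - C * √n ≤ (maxMult n l : ℝ)) := by
  refine ⟨fun h => ?_, fun h => ⟨fun l l1 l2 l3 => ?_, ?_⟩⟩
  · obtain ⟨l, l1, l2, l3, -, l5⟩ := ef_in hd h.1 h.2
    exact ⟨l, l1, l2, l3, l5 fun _ ha => ha⟩
  · rw [← l2]
    refine trace_upper l l1.tower_top ?_
    rw [l2, l3]
    rcases lt_or_ge 0 s with h1 | h1
    · exact Or.inl (by exact_mod_cast (by omega : -s < 0))
    · exact Or.inr (by exact_mod_cast (by omega : (d : ℤ) < -s))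
  · obtain ⟨l, l1, l2, l3, l4, -⟩ := ef_out hd (s := s) (by omega)
    exact ⟨l, l1, l2, l3, l4⟩

/-- The question as posed, with a witness of any prescribed degree `d ≥ 2` (trace `1`). -/
theorem posed_form (d : ℕ) (hd : 2 ≤ d) : ∃ l : ℝ, IsIntegral ℤ l ∧
    (minpoly ℚ l).natDegree = d ∧ (∃ (k : ℕ) (G : SimpleGraph (Fin k)), 0 < mult G l) ∧
    ∃ c : ℝ, 0 < c ∧ ∃ n₀ : ℕ, ∀ n ≥ n₀,
      (maxMult n l : ℝ) ≤ n / (minpoly ℚ l).natDegree - c * √n := by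
  obtain ⟨h, l, l1, l2, l3, C, hC⟩ := (result d hd 1).2 (by omega)
  obtain ⟨c, c0, hc⟩ := h l l1 l2 l3
  refine ⟨l, l1, l2, ?_, c, c0, 0, fun n _ => by rw [l2]; exact hc n⟩
  have d0 : (0 : ℝ) < d := by exact_mod_cast (by omega : 0 < d)
  obtain ⟨N, hN⟩ := exists_nat_gt (d * |C|)
  obtain ⟨G, hG⟩ := max_attained (N * N) l
  have h1 := hC (N * N)
  rw [hG, Nat.cast_mul, Real.sqrt_mul_self N.cast_nonneg] at h1
  have N0 : (0 : ℝ) < N := lt_of_le_of_lt (by positivity) hN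
  have h3 : C * N < N * N / d := by
    rw [lt_div_iff₀ d0]
    nlinarith [le_abs_self C, mul_pos N0 d0]
  have h2 : (0 : ℝ) < mult G l := by linarith
  exact ⟨_, G, by exact_mod_cast h2⟩

end Pool.Agent.Results.MP_4bb7d7_co.TraceDichotomy
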